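import Pool.Agent.Q139.EB.Lang

set_option autoImplicit false

/-!
# Subvarieties of general type and entire curves over nonlinear systems

Let `X = {F = 0}` be a complex projective variety such that every closed subvariety of `X` of
positive dimension is of general type (`AllGeneralType F`), as in Lang's conjecture, and let numbers
`q`, `e0`, `s`, `r`, `e` be given. We consider curves given by `s` iterated linear differential
equations with matrices of size `r` and polynomials of degree at most `e` over functions
`b_1, ..., b_q` which solve an autonomous system `b_j' = P_j(b)`, `P_j` polynomials of degree at most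
`e0` in each variable (`Auto`, `BVec`): there are invertible matrices `X_1(z), ..., X_s(z)` of size
`r` of analytic functions such that the entries of `X_l'(z) X_l(z)⁻¹` are values of polynomials with
constant coefficients, of degree at most `e` in each variable, at the `b_j(z)` and the entries of
`X_i(z)`, `X_i(z)⁻¹`, `i < l`, and the homogeneous coordinates of the curve are values of such
polynomials at the `b_j(z)` and the entries of all these matrices.

There is a number `D`, depending only on the dimension of the projective space, the degrees of the
equations of `X` and `q`, `e0`, `s`, `r`, `e`, such that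

(1) for all domains `Ω` of the plane and all solutions `b` on `Ω` of such (nonlinear) systems, every
curve `f : Ω → X` of this kind is algebraic of degree at most `D` over the functions `b_j`;

(2) for all lattices `L` in the plane, every entire curve `f : ℂ → X` which is given, on some domain,
in this way over elliptic functions `b_1, ..., b_q` for `L`, is constant.
-/

namespace Pool.Agent.Results.MP_c6ff8d_ag.CurvesOverSystems

open MvPolynomial Pool.Agent.Q139.EB
open scoped LinearAlgebra.Projectivization
open Pool.Agent.TH143.EL (HolMap)
open Pool.Agent.W602.GT (AllGeneralType)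

theorem result (n D0 q e0 s r e : ℕ) : ∃ D : ℕ,
    ∀ (ι : Type) (F : ι → MvPolynomial (Fin (n + 1)) ℂ),
      (∀ i, ∃ k, k ≤ D0 ∧ (F i).IsHomogeneous k) → AllGeneralType F →
      (∀ Ω : Set ℂ, IsOpen Ω → IsPreconnected Ω → Ω.Nonempty → ∀ b : ℂ → Fin q → ℂ,
        Auto Ω e0 b → ∀ f : ℂ → Fin (n + 1) → ℂ, BVec Ω s r e b f →
        (∀ z ∈ Ω, ∀ i, eval (f z) (F i) = 0) →
        ∀ u v, AlgOn Ω D b (fun z => f z u) fun z => f z v) ∧
      ∀ (L : PeriodPair) (f : ℂ → ℙ ℂ (Fin (n + 1) → ℂ)), HolMap f →
        (∀ z i, eval (f z).rep (F i) = 0) → EllCurve L q e0 s r e f → ∀ z w, f z = f w :=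
  lang_uniform n D0 q e0 s r e

end Pool.Agent.Results.MP_c6ff8d_ag.CurvesOverSystems
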