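import Pool.Agent.Q139.EB.Lang

set_option autoImplicit false

/-!
# Varieties without maps from tori and entire curves over nonlinear systems

Let `X` be a closed subset of the complex projective `n`-space, given by a set `S` of forms, such
that every holomorphic map from a complex torus of dimension one to `X` is constant (`TorusFree S`),
and let numbers `q`, `e0`, `s`, `r`, `e` be given. We consider curves given by `s` iterated linear
differential equations with matrices of size `r` and polynomials of degree at most `e` over functions
`b_1, ..., b_q` which solve an autonomous system `b_j' = P_j(b)`, `P_j` polynomials of degree at most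
`e0` in each variable (`Auto`, `BVec`): there are invertible matrices `X_1(z), ..., X_s(z)` of size
`r` of analytic functions such that the entries of `X_l'(z) X_l(z)⁻¹` are values of polynomials with
constant coefficients, of degree at most `e` in each variable, at the `b_j(z)` and the entries of
`X_i(z)`, `X_i(z)⁻¹`, `i < l`, and the homogeneous coordinates of the curve are values of such
polynomials at the `b_j(z)` and the entries of all these matrices.

There is a number `D`, depending only on `n`, the degrees of the equations of `X` and `q`, `e0`, `s`,
`r`, `e`, such that

(1) for all domains `Ω` of the plane and all solutions `b` on `Ω` of such (nonlinear) systems, every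
curve `f : Ω → X` of this kind is algebraic of degree at most `D` over the functions `b_j`;

(2) for all lattices `L` in the plane, every entire curve `f : ℂ → X` which is given, on some domain,
in this way over elliptic functions `b_1, ..., b_q` for `L`, is constant.
-/

namespace Pool.Agent.Results.MP_45e720_ag.CurvesOverSystems

open MvPolynomial Pool.Agent.Q139.EB
open scoped LinearAlgebra.Projectivization
open Pool.Agent.TH143.EL (HolMap)

theorem result (n D0 q e0 s r e : ℕ) : ∃ D : ℕ,
    ∀ S : Set (MvPolynomial (Fin (n + 1)) ℂ), (∀ F ∈ S, ∃ k, k ≤ D0 ∧ F.IsHomogeneous k) →
      TorusFree S →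
      (∀ Ω : Set ℂ, IsOpen Ω → IsPreconnected Ω → Ω.Nonempty → ∀ b : ℂ → Fin q → ℂ,
        Auto Ω e0 b → ∀ f : ℂ → Fin (n + 1) → ℂ, BVec Ω s r e b f →
        (∀ z ∈ Ω, ∀ F ∈ S, eval (f z) F = 0) →
        ∀ u v, AlgOn Ω D b (fun z => f z u) fun z => f z v) ∧
      ∀ (L : PeriodPair) (f : ℂ → ℙ ℂ (Fin (n + 1) → ℂ)), HolMap f → OnV S f →
        EllCurve L q e0 s r e f → ∀ z w, f z = f w :=
  torusFree_uniform n D0 q e0 s r e

end Pool.Agent.Results.MP_45e720_ag.CurvesOverSystems
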