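import Pool.Agent.Q139.EB.DomEll

set_option autoImplicit false

/-!
# Brody-special varieties and the varieties which they dominate

Let `X ⊆ ℙ^N` be a complex projective variety with the ideal `p`, the function field `K` and the
generic point `y`. Let `Y ⊆ ℙ^m` be the closure of the image of `X` under a rational map
`[g_0 : ... : g_m]`; its function field is generated over `ℂ` by the quotients of the functions
`g_i(y)`, and `w'` is its dimension. For all `q`, `e0`, `s`, `r`, `e` there is a number `D` such that:

(1) Let `b = (b_1, ..., b_q)` be any solution, on any domain `Ω` of the plane, of any autonomous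
system `b_j' = P_j(b)` with polynomials `P_j` of degree at most `e0` in each variable (the system is
nonlinear in general). Assume that some curve `f : Ω → X`, the homogeneous coordinates of which are
given by `s` iterated linear differential equations with matrices of size `r` and polynomials of
degree at most `e` over the functions `b_j` (`BVec Ω s r e b f`), is Zariski-dense in `X`. If
`dim Y > q`, then the rational curves of degree at most `D` on `Y` are Zariski-dense in `Y`. (For
`q = 0` the functions `b_j` are absent, and the condition is `dim Y > 0`.)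

(2) Assume that for some lattice `L` in the plane some entire curve `f : ℂ → X`, which is given, on
some domain, in this way over elliptic functions `b_1, ..., b_q` for `L` (`EllCurve L q e0 s r e f`),
is Zariski-dense in `X`. If `dim Y > 1`, then the rational curves of degree at most `D` on `Y` are
Zariski-dense in `Y`; if `dim Y > 0`, then `Y` is not of general type.

By the theorems on the rational quotient and on sections over curves, (2) says that these
Brody-special varieties `X` are rationally connected, or fibred over an elliptic curve with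
rationally connected fibres; they are special.
-/

namespace Pool.Agent.Results.MP_1209e6_ag.DominatedVarieties

open MvPolynomial Pool.Agent.Q139.EB
open scoped LinearAlgebra.Projectivization
open Pool.Agent.TH143.EL (HolMap)
open Pool.Agent.TH143.GT (FunField)
open Pool.Agent.W602.GT (GeneralType coords)

theorem result {N m : ℕ} (p : Ideal (MvPolynomial (Fin (N + 1)) ℂ)) (K : Type) [Field K]
    [Algebra ℂ K] (w : ℕ) (y : Fin (N + 1) → K) (hy : FunField p 1 K w y) (e1 : ℕ)
    (g : Fin (m + 1) → MvPolynomial (Fin (N + 1)) ℂ) (hg : ∀ i, (g i).IsHomogeneous e1) (w' : ℕ)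
    (hw' : Algebra.trdeg ℂ (coords ℂ fun i => aeval y (g i)) = w') (q e0 s r e : ℕ) :
    ∃ D : ℕ,
      (∀ Ω : Set ℂ, IsOpen Ω → IsPreconnected Ω → ∀ b : ℂ → Fin q → ℂ, Auto Ω e0 b →
        ∀ f : ℂ → Fin (N + 1) → ℂ, BVec Ω s r e b f →
        (∀ G : MvPolynomial (Fin (N + 1)) ℂ, (∃ k, G.IsHomogeneous k) →
          (G ∈ p ↔ ∀ z ∈ Ω, eval (f z) G = 0)) → q < w' → CoveredDeg (ImForms p g) D) ∧
      ∀ (L : PeriodPair) (f : ℂ → ℙ ℂ (Fin (N + 1) → ℂ)), HolMap f →
        (∀ G : MvPolynomial (Fin (N + 1)) ℂ, (∃ k, G.IsHomogeneous k) →
          (G ∈ p ↔ ∀ z, eval (f z).rep G = 0)) → EllCurve L q e0 s r e f →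
        (1 < w' → CoveredDeg (ImForms p g) D) ∧
          (0 < w' → ¬ GeneralType ℂ (coords ℂ fun i => aeval y (g i)) w') := by
  obtain ⟨D1, h1⟩ := dom_dim hy hg hw' q e0 s r e
  obtain ⟨D2, h2⟩ := dom_ell hy hg hw' q e0 s r e
  have hmono : ∀ D : ℕ, D ≤ max D1 D2 → CoveredDeg (ImForms p g) D →
      CoveredDeg (ImForms p g) (max D1 D2) := fun D hD hC G hG hR =>
    hC G hG fun P hP => hR P fun j => (hP j).trans hD
  exact ⟨max D1 D2,
    fun Ω hΩ hΩc b hb f hf hp hq => hmono _ (le_max_left _ _) (h1 Ω hΩ hΩc b hb f hf hp hq),
    fun L f hf hp hE => ⟨fun hw => hmono _ (le_max_right _ _) ((h2 L f hf hp hE).1 hw),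
      (h2 L f hf hp hE).2⟩⟩

end Pool.Agent.Results.MP_1209e6_ag.DominatedVarieties
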