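import Pool.Agent.Q139.EB.AffUni

set_option autoImplicit false

/-!
# Pseudo-hyperbolicity of affine varieties for curves over nonlinear systems and elliptic functions

Let `V` be an integral affine variety over `ℂ`, given by the prime ideal `I` of `ℂ[x_1, ..., x_n]`.
Let `b = (b_1, ..., b_q)` be a solution, on a domain `Ω` of the plane, of an autonomous system
`b_j' = P_j(b)`, where the `P_j` are polynomials with constant coefficients of degree at most `e0` in
each variable (the system is nonlinear in general), and consider curves `f : Ω → V` whose affine
coordinates are given by `s` iterated linear differential equations with matrices of size `r` and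
polynomials of degree at most `e` OVER the functions `b_j` (`BVec Ω s r e b f`): there are invertible
matrices `X_1(z), ..., X_s(z)` of size `r` of analytic functions on `Ω` such that the entries of
`X_l'(z) X_l(z)⁻¹` are values of polynomials with constant coefficients, of degree at most `e` in
each variable, at the `b_j(z)` and the entries of `X_i(z)`, `X_i(z)⁻¹`, `i < l`, and the coordinates
of `f(z)` are values of such polynomials at the `b_j(z)` and the entries of all these matrices.

The following are equivalent:

(1) over no extension field `M` of `ℂ` there is a nonconstant curve `p(t) / t ^ m`, `t ≠ 0`, on `V`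
the point `t = 1` of which is generic over `ℂ`;

(2) for every `d` there is ONE proper closed subset `V ∩ {G = 0}` of `V` which contains all
nonconstant curves `p(t) / t ^ m` on `V` with `m`, `deg p_j ≤ d`;

(3) for all `q`, `e0`, `s`, `r`, `e` there are `d` and ONE proper closed subset `V ∩ {G = 0}` of `V`
such that for all domains `Ω` and all solutions `b` of autonomous systems as above, every curve
`f : Ω → V` with `BVec Ω s r e b f` lies in `V ∩ {G = 0}` or is algebraic of degree at most `d` over
the functions `b_1, ..., b_q`;

(4) for all `q`, `e0`, `s`, `r`, `e` there is ONE proper closed subset `V ∩ {G = 0}` of `V` which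
contains, for all lattices `L` in the plane, ALL nonconstant entire curves `f : ℂ → V` which are
given, on some domain, by `s` iterated linear differential equations over elliptic functions
`b_1, ..., b_q` for `L` as above (`EllCurveA L q e0 s r e f`).
-/

namespace Pool.Agent.Results.MP_64ff02_ag.EllipticPseudoBrody

open MvPolynomial Pool.Agent.Q1.SL Pool.Agent.Q139.EB

theorem result {n : ℕ} {I : Ideal (MvPolynomial (Fin n) ℂ)} (hprime : I.IsPrime) :
    List.TFAE [¬ GmUniruled I, LauDeg I, BaseDegA I, EllDegA I] :=
  baseA_tfae hprime

end Pool.Agent.Results.MP_64ff02_ag.EllipticPseudoBrody
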