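import Pool.Agent.Q139.EB.GT

set_option autoImplicit false

/-!
# Projective varieties of general type and entire curves over nonlinear systems

Let `X` be a complex projective variety of general type, given by the ideal `p`, with the function
field `K`, the generic point `y` and the dimension `w`. For all `q`, `e0`, `s`, `r`, `e` there are a
number `D` and ONE proper Zariski-closed subset `X ∩ {G = 0}` of `X` such that:

(1) Let `b = (b_1, ..., b_q)` be any solution, on any domain `Ω` of the plane, of any autonomous
system `b_j' = P_j(b)` with polynomials `P_j` of degree at most `e0` in each variable (the system is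
nonlinear in general). Every curve `f : Ω → X`, the homogeneous coordinates of which are given by `s`
iterated linear differential equations with matrices of size `r` and polynomials of degree at most
`e` over the functions `b_j` (`BVec Ω s r e b f`), lies in `X ∩ {G = 0}` or is algebraic of degree
at most `D` over the functions `b_1, ..., b_q`.

(2) For all lattices `L` in the plane, every entire curve `f : ℂ → X` which is given, on some domain,
in this way over elliptic functions `b_1, ..., b_q` for `L` (`EllCurve L q e0 s r e f`) lies in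
`X ∩ {G = 0}` or factors through the complex torus `ℂ / Λ` for a subgroup `Λ` of index at most `D`
of `L`.
-/

namespace Pool.Agent.Results.MP_8d161d_ag.GeneralTypeBases

open MvPolynomial Pool.Agent.Q139.EB
open scoped LinearAlgebra.Projectivization
open Pool.Agent.TH143.EL (HolMap InV)
open Pool.Agent.TH143.GT (FunField)
open Pool.Agent.W602.GT (GeneralType)

theorem result {N : ℕ} (p : Ideal (MvPolynomial (Fin (N + 1)) ℂ)) (K : Type) [Field K]
    [Algebra ℂ K] (w : ℕ) (y : Fin (N + 1) → K) (hy : FunField p 1 K w y)
    (hL : GeneralType ℂ K w) (q e0 s r e : ℕ) :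
    ∃ (G : MvPolynomial (Fin (N + 1)) ℂ) (D : ℕ), (∃ k, G.IsHomogeneous k) ∧ G ∉ p ∧
      (∀ Ω : Set ℂ, IsOpen Ω → IsPreconnected Ω → ∀ b : ℂ → Fin q → ℂ,
        Auto Ω e0 b → ∀ f : ℂ → Fin (N + 1) → ℂ, BVec Ω s r e b f →
        (∀ z ∈ Ω, ∀ F ∈ p, (∃ k, F.IsHomogeneous k) → eval (f z) F = 0) →
        (∀ z ∈ Ω, eval (f z) G = 0) ∨ ∀ u v, AlgOn Ω D b (fun z => f z u) fun z => f z v) ∧
      (∀ (L : PeriodPair) (f : ℂ → ℙ ℂ (Fin (N + 1) → ℂ)), HolMap f → (∀ z, InV p (f z)) →
        EllCurve L q e0 s r e f → (∀ z, eval (f z).rep G = 0) ∨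
          ∃ Λ : AddSubgroup L.lattice, Λ.index ≠ 0 ∧ Λ.index ≤ D ∧
            ∀ l ∈ Λ, ∀ z, f (z + (l : ℂ)) = f z) :=
  gt_degenerate hy hL q e0 s r e

end Pool.Agent.Results.MP_8d161d_ag.GeneralTypeBases
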