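import Pool.Agent.Q139.EB.Uni

set_option autoImplicit false

/-!
# Curves given by iterated linear differential equations over nonlinear systems

Let `X` be an integral closed subvariety of the complex projective `n`-space, given by finitely many
forms `FF` which span a prime ideal. Let `b = (b_1, ..., b_q)` be a solution, on a domain `Ω` of the
plane, of an autonomous system `b_j' = P_j(b)`, where the `P_j` are polynomials with constant
coefficients of degree at most `e0` in each variable (the system is nonlinear in general; examples
of the `b_j` are `z`, the exponential function, the Weierstrass functions of a lattice, modular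
functions, hypergeometric functions, solutions of Painleve equations), and consider curves
`f : Ω → X` whose homogeneous coordinates are given by `s` iterated linear differential equations
with matrices of size `r` and polynomials of degree at most `e` OVER the functions `b_j`
(`BVec Ω s r e b f`): there are invertible matrices `X_1(z), ..., X_s(z)` of size `r` of analytic
functions on `Ω` such that the entries of `X_l'(z) X_l(z)⁻¹` are values of polynomials with constant
coefficients, of degree at most `e` in each variable, at the `b_j(z)` and the entries of `X_i(z)`,
`X_i(z)⁻¹`, `i < l`, and the coordinates of `f(z)` are values of such polynomials at the `b_j(z)` and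
the entries of all these matrices.

The following are equivalent:

(1) `X` is not uniruled (over no extension field of `ℂ` there is a nonconstant rational curve on `X`
through a point which is generic over `ℂ`);

(2) for every `d` there is ONE proper closed subset `X ∩ {G = 0}` of `X` which contains all
nonconstant rational curves of degree at most `d` on `X`;

(3) for all `q`, `e0`, `s`, `r`, `e` there are `d` and ONE proper closed subset `X ∩ {G = 0}` of `X`
such that for all domains `Ω` and all solutions `b` of autonomous systems as above, every curve
`f : Ω → X` with `BVec Ω s r e b f` lies in `X ∩ {G = 0}` or is algebraic of degree at most `d` over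
the functions `b_1, ..., b_q`;

(4) for all `q`, `e0`, `s`, `r`, `e` there are `N` and ONE proper closed subset `X ∩ {G = 0}` of `X`
such that for all lattices `L` in the plane, every entire curve `f : ℂ → X` which is given by `s`
iterated linear differential equations over elliptic functions `b_1, ..., b_q` for `L` as above
(`EllCurve L q e0 s r e f`) lies in `X ∩ {G = 0}` or factors through the complex torus `ℂ / Λ` for a
subgroup `Λ` of `L` of index at most `N`.
-/

namespace Pool.Agent.Results.MP_2a5ae2_ag.NonlinearBase

open MvPolynomial Pool.Agent.H533R3.SL Pool.Agent.Q1.SL Pool.Agent.Q139.EB

theorem result {n : ℕ} (FF : Finset (MvPolynomial (Fin (n + 1)) ℂ))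
    (hhom : ∀ F ∈ FF, ∃ e, F.IsHomogeneous e)
    (hprime : (Ideal.span (FF : Set (MvPolynomial (Fin (n + 1)) ℂ))).IsPrime) :
    List.TFAE [¬ Uniruled (Ideal.span (FF : Set (MvPolynomial (Fin (n + 1)) ℂ))),
      RatDeg (Ideal.span (FF : Set (MvPolynomial (Fin (n + 1)) ℂ))),
      BaseDeg (FF : Set (MvPolynomial (Fin (n + 1)) ℂ)),
      EllDeg (FF : Set (MvPolynomial (Fin (n + 1)) ℂ))] :=
  base_tfae FF hhom hprime

end Pool.Agent.Results.MP_2a5ae2_ag.NonlinearBase
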