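import Pool.Agent.Q139.EB.Main
import Pool.Agent.Q139.EB.Exm

set_option autoImplicit false

/-!
# Finitely many tori control the entire curves of bounded complexity over the elliptic functions

Let `L` be a lattice in the plane. We consider entire curves `f : ℂ → X` in closed subsets `X` of the
complex projective `n`-space which are given by `s` iterated linear differential equations over the
elliptic functions of `L` (`EllCurve L q e0 s r e f`). This means the following, on some domain `Ω`:
there are elliptic functions `b_1, ..., b_q` for `L` whose derivatives are values of polynomials of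
degree at most `e0` (in each variable) at `b_1, ..., b_q` (`EllBase`), and invertible matrices
`X_1(z), ..., X_s(z)` of size `r` of analytic functions on `Ω` such that the entries of
`X_l'(z) X_l(z)⁻¹` are values of polynomials with constant coefficients, of degree at most `e` in each
variable, at the `b_j(z)` and the entries of `X_i(z)`, `X_i(z)⁻¹`, `i < l`, and the homogeneous
coordinates of `f(z)` are values of such polynomials at the `b_j(z)` and the entries of all these
matrices (`BVec`). The matrices need not extend to single-valued functions on the plane.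

For example `℘`, `℘'` and `1 / g (℘, ℘')` are such functions `b_1, b_2, b_3`, for every polynomial
`g` (`e0 = deg g + 4`; theorem `example_base`). So the coefficients of the equations can be arbitrary
elliptic functions, and polynomials in solutions of the previous equations.

For all `n`, `D`, `q`, `e0`, `s`, `r`, `e` there is a number `N` such that for ALL lattices `L`,
all closed subsets `X` of projective `n`-space defined by forms of degree at most `D` and all forms
`G` of degree at most `D`: if all nonconstant holomorphic maps from the (finitely many) complex tori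
`ℂ / Λ` to `X`, for the subgroups `Λ` of `L` of index at most `N`, have their image in `G = 0`, then
all nonconstant entire curves in `X` as above have their image in `G = 0`.

In particular (`G = 1`), if all holomorphic maps from these tori `ℂ / Λ` to `X` are constant, then all
these entire curves in `X` are constant.
-/

namespace Pool.Agent.Results.MP_b9fedf_ag.UniformTori

open MvPolynomial
open scoped LinearAlgebra.Projectivization
open Pool.Agent.TH143.EL (HolMap)
open Pool.Agent.Q139.EB

/-- The functions `℘`, `℘'` and `1 / g (℘, ℘')` are a base, for every polynomial `g`. -/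
theorem example_base (L : PeriodPair) (g : MvPolynomial (Fin 2) ℂ) (Ω : Set ℂ)
    (hΩ : ∀ z ∈ Ω, z ∉ L.lattice ∧ eval ![L.weierstrassP z, L.derivWeierstrassP z] g ≠ 0) :
    EllBase L Ω (g.totalDegree + 4) (wpG L g) :=
  wpG_base L g hΩ

theorem result (n D q e0 s r e : ℕ) : ∃ N : ℕ,
    (∀ (L : PeriodPair) (S : Set (MvPolynomial (Fin (n + 1)) ℂ))
      (G : MvPolynomial (Fin (n + 1)) ℂ),
      (∀ F ∈ S, ∃ e, e ≤ D ∧ F.IsHomogeneous e) → (∃ e, e ≤ D ∧ G.IsHomogeneous e) →
      (∀ Λ : AddSubgroup L.lattice, Λ.index ≠ 0 → Λ.index ≤ N → TorusIn L Λ S G) →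
      ∀ f : ℂ → ℙ ℂ (Fin (n + 1) → ℂ), HolMap f → OnV S f → EllCurve L q e0 s r e f →
        (∃ z w, f z ≠ f w) → ∀ z, eval (f z).rep G = 0) ∧
    ∀ (L : PeriodPair) (S : Set (MvPolynomial (Fin (n + 1)) ℂ)),
      (∀ F ∈ S, ∃ e, e ≤ D ∧ F.IsHomogeneous e) →
      (∀ Λ : AddSubgroup L.lattice, Λ.index ≠ 0 → Λ.index ≤ N →
        ∀ g : ℂ → ℙ ℂ (Fin (n + 1) → ℂ), HolMap g → (∀ l ∈ Λ, ∀ z, g (z + (l : ℂ)) = g z) →
          OnV S g → ∀ z w, g z = g w) →
      ∀ f : ℂ → ℙ ℂ (Fin (n + 1) → ℂ), HolMap f → OnV S f → EllCurve L q e0 s r e f →
        ∀ z w, f z = f w := by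
  obtain ⟨N, hN⟩ := tori_uniform n D q e0 s r e
  refine ⟨N, hN, fun L S hS hT f hf hfS hE z w => ?_⟩
  by_contra hne
  have h1 := hN L S 1 hS ⟨0, Nat.zero_le _, isHomogeneous_one _ _⟩
    (fun Λ h1 h2 g hg hgL hgS hnc => by
      obtain ⟨a, b, hab⟩ := hnc
      exact absurd (hT Λ h1 h2 g hg hgL hgS a b) hab) f hf hfS hE ⟨z, w, hne⟩ z
  rw [map_one] at h1
  exact one_ne_zero h1

end Pool.Agent.Results.MP_b9fedf_ag.UniformTori
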